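import Pool.Agent.MP_8048c5_an.Strong

set_option autoImplicit false

open MeasureTheory

namespace Pool.Agent.Results.MP_8048c5_an.MeasurableExtension

/-- The linear functional `∑ c_x exp (i x t) ↦ ∑ c_x f(x)` on the almost periodic polynomials with
exponents in `S` has norm at most `C` for the sup norm on `ℝ`. -/
def NormLE (S : Set ℝ) (f : ℝ → ℂ) (C : ℝ) : Prop :=
  ∀ c : ℝ →₀ ℂ, (∀ x ∈ c.support, x ∈ S) →
    ‖c.sum fun x z => z * f x‖ ≤
      C * ⨆ t : ℝ, ‖c.sum fun x z => z * Complex.exp (Complex.I * (x : ℂ) * (t : ℂ))‖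

theorem to_bdC {S : Set ℝ} {f : ℝ → ℂ} {C : ℝ} (hC : 0 ≤ C) (h : NormLE S f C) :
    MP_8048c5_an.Strong.BdC S C f := by
  classical
  intro s hs c M hM
  let c' : ℝ →₀ ℂ := Finsupp.onFinset s (fun x => if x ∈ s then c x else 0) (by
    intro x hx
    by_contra hxs
    simp [hxs] at hx)
  have hsum : ∀ F : ℝ → ℂ, (c'.sum fun x z => z * F x) = ∑ x ∈ s, c x * F x := by
    intro F
    rw [Finsupp.onFinset_sum _ (fun x => by simp)]
    refine Finset.sum_congr rfl fun x hx => ?_
    rw [if_pos hx]
  have h1 := h c' (by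
    intro x hx
    exact hs x (Finsupp.support_onFinset_subset hx))
  rw [hsum f] at h1
  refine h1.trans (mul_le_mul_of_nonneg_left ?_ hC)
  refine ciSup_le fun t => ?_
  rw [hsum (fun x : ℝ => Complex.exp (Complex.I * (x : ℂ) * (t : ℂ)))]
  exact hM t

theorem of_bdC {S : Set ℝ} {f : ℝ → ℂ} {C : ℝ} (h : MP_8048c5_an.Strong.BdC S C f) :
    NormLE S f C := by
  intro c hc
  refine h c.support hc c _ fun t => ?_
  have hb : BddAbove (Set.range fun t : ℝ =>
      ‖c.sum fun x z => z * Complex.exp (Complex.I * (x : ℂ) * (t : ℂ))‖) := by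
    refine ⟨∑ x ∈ c.support, ‖c x‖, ?_⟩
    rintro _ ⟨t, rfl⟩
    refine (norm_sum_le _ _).trans (Finset.sum_le_sum fun x _ => ?_)
    rw [norm_mul]
    have h1 : ‖Complex.exp (Complex.I * (x : ℂ) * (t : ℂ))‖ = 1 := by
      have : Complex.I * (x : ℂ) * (t : ℂ) = ((x * t : ℝ) : ℂ) * Complex.I := by
        push_cast
        ring
      rw [this, Complex.norm_exp_ofReal_mul_I]
    rw [h1, mul_one]
  exact le_ciSup hb t

/-- There is an absolute constant `K` such that every Lebesgue measurable `f` on a bounded open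
interval `(a, b)` which is the characteristic function of a functional of norm at most `C` on the
almost periodic polynomials with exponents in `(a, b)` extends to a Lebesgue measurable function on
`ℝ` which is the characteristic function of a functional of norm at most `K C` on all almost
periodic polynomials. -/
theorem result :
    ∃ K : ℝ, ∀ a b : ℝ, a < b → ∀ (f : ℝ → ℂ) (C : ℝ), 0 ≤ C →
      NullMeasurable f (volume.restrict (Set.Ioo a b)) → NormLE (Set.Ioo a b) f C →
      ∃ g : ℝ → ℂ, (∀ x ∈ Set.Ioo a b, g x = f x) ∧ NullMeasurable g volume ∧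
        NormLE Set.univ g (K * C) := by
  obtain ⟨K, -, hK⟩ := MP_8048c5_an.Strong.extension_Ioo
  refine ⟨K, fun a b hab f C hC hf hb => ?_⟩
  obtain ⟨g, h1, h2, h3⟩ := hK a b hab f C hC hf.aemeasurable (to_bdC hC hb)
  exact ⟨g, h1, h2.nullMeasurable, of_bdC h3⟩

end Pool.Agent.Results.MP_8048c5_an.MeasurableExtension
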